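import Mathlib

/-! # Counting by orbits of generators of cyclic subgroups -/

namespace Pool.Agent.U332.GX

open Finset

section

variable {G : Type} [CommGroup G] [Finite G]

omit [Finite G] in
lemma gen' (x : G) {j : ℕ} (hj : j.Coprime (orderOf x)) :
    Subgroup.zpowers (x ^ j) = Subgroup.zpowers x := by
  apply le_antisymm
  · rw [Subgroup.zpowers_le]
    exact Subgroup.pow_mem _ (Subgroup.mem_zpowers x) _
  · rw [Subgroup.zpowers_le]
    obtain ⟨l, hl⟩ := exists_pow_eq_self_of_coprime (n := j) (x := x) hj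
    have h1 : (x ^ j) ^ l ∈ Subgroup.zpowers (x ^ j) :=
      Subgroup.pow_mem _ (Subgroup.mem_zpowers (x ^ j)) l
    rwa [hl] at h1

lemma gen {x y : G} (h : Subgroup.zpowers y = Subgroup.zpowers x) :
    ∃ j, j < orderOf x ∧ j.Coprime (orderOf x) ∧ x ^ j = y := by
  classical
  have h1 : y ∈ Subgroup.zpowers x := h ▸ Subgroup.mem_zpowers y
  rw [mem_zpowers_iff_mem_range_orderOf, mem_image] at h1
  obtain ⟨j, hj, rfl⟩ := h1
  rw [mem_range] at hj
  refine ⟨j, hj, ?_, rfl⟩
  have h2 : orderOf (x ^ j) = orderOf x := by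
    rw [← Nat.card_zpowers, ← Nat.card_zpowers, h]
  rw [orderOf_pow] at h2
  have h3 : 0 < orderOf x := orderOf_pos x
  have h4 : Nat.gcd (orderOf x) j ∣ orderOf x := Nat.gcd_dvd_left _ _
  have h5 : Nat.gcd (orderOf x) j = 1 := by
    have h6 := Nat.div_mul_cancel h4
    rw [h2] at h6
    have h7 : orderOf x * Nat.gcd (orderOf x) j = orderOf x * 1 := by rw [h6, mul_one]
    exact Nat.eq_of_mul_eq_mul_left h3 h7
  rw [Nat.coprime_comm]
  exact h5

end

theorem count {G : Type} [CommGroup G] [Finite G] [DecidableEq G] (O B : Finset G) (hBO : B ⊆ O)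
    (hO : ∀ x ∈ O, ∀ j : ℕ, j.Coprime (orderOf x) → x ^ j ∈ O) (β : ℝ) (hβ : 0 ≤ β)
    (h : ∀ x ∈ O, (((range (orderOf x)).filter
      (fun j => j.Coprime (orderOf x) ∧ x ^ j ∈ B)).card : ℝ) ≤ β * Nat.totient (orderOf x)) :
    (B.card : ℝ) ≤ β * O.card := by
  classical
  set Z : G → Subgroup G := fun x => Subgroup.zpowers x with hZ
  have h1 : B.card = ∑ b ∈ O.image Z, (B.filter (fun a => Z a = b)).card := by
    apply card_eq_sum_card_fiberwise
    intro x hx
    exact mem_coe.mpr (mem_image_of_mem _ (hBO hx))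
  have h2 : O.card = ∑ b ∈ O.image Z, (O.filter (fun a => Z a = b)).card := by
    apply card_eq_sum_card_fiberwise
    intro x hx
    exact mem_coe.mpr (mem_image_of_mem _ hx)
  rw [h1, h2]
  push_cast
  rw [mul_sum]
  apply sum_le_sum
  intro b hb
  rw [mem_image] at hb
  obtain ⟨x, hx, rfl⟩ := hb
  have h3 : (B.filter (fun a => Z a = Z x)).card ≤ ((range (orderOf x)).filter
      (fun j => j.Coprime (orderOf x) ∧ x ^ j ∈ B)).card := by
    rw [← card_image_of_injOn (s := (range (orderOf x)).filter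
      (fun j => j.Coprime (orderOf x) ∧ x ^ j ∈ B)) (f := fun j => x ^ j)]
    · apply card_le_card
      intro y hy
      rw [mem_filter] at hy
      obtain ⟨j, hj1, hj2, hj3⟩ := gen hy.2
      rw [mem_image]
      refine ⟨j, ?_, hj3⟩
      rw [mem_filter, mem_range]
      exact ⟨hj1, hj2, by rw [hj3]; exact hy.1⟩
    · intro a ha b hb hab
      rw [mem_coe, mem_filter, mem_range] at ha hb
      exact pow_injOn_Iio_orderOf ha.1 hb.1 hab
  have h4 : Nat.totient (orderOf x) ≤ (O.filter (fun a => Z a = Z x)).card := by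
    rw [Nat.totient_eq_card_coprime,
      ← card_image_of_injOn (s := (range (orderOf x)).filter fun j => (orderOf x).Coprime j)
      (f := fun j => x ^ j)]
    · apply card_le_card
      intro y hy
      rw [mem_image] at hy
      obtain ⟨j, hj, rfl⟩ := hy
      rw [mem_filter, mem_range] at hj
      rw [mem_filter]
      exact ⟨hO x hx j hj.2.symm, gen' x hj.2.symm⟩
    · intro a ha b hb hab
      rw [mem_coe, mem_filter, mem_range] at ha hb
      exact pow_injOn_Iio_orderOf ha.1 hb.1 hab
  calc ((B.filter (fun a => Z a = Z x)).card : ℝ) ≤ (((range (orderOf x)).filter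
      (fun j => j.Coprime (orderOf x) ∧ x ^ j ∈ B)).card : ℝ) := by exact_mod_cast h3
    _ ≤ β * Nat.totient (orderOf x) := h x hx
    _ ≤ β * ((O.filter (fun a => Z a = Z x)).card : ℝ) := by
        apply mul_le_mul_of_nonneg_left _ hβ
        exact_mod_cast h4

end Pool.Agent.U332.GX
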