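import Mathlib

/-! # Half sums of odd characters, general modulus -/

namespace Pool.Agent.U332.GX

open Finset

variable {R : Type} [CommRing R] {M : ℕ}

/-- `∑ n χ(n)` -/
def TT (χ : DirichletCharacter R M) : R := ∑ n ∈ range M, (n : R) * χ (n : ZMod M)

/-- the half sum -/
def HS (χ : DirichletCharacter R M) : R := ∑ n ∈ Icc 1 ((M - 1) / 2), χ (n : ZMod M)

lemma chi_refl (χ : DirichletCharacter R M) (hχ : χ.Odd) (n : ℕ) (hn : n ≤ M) :
    χ ((M - n : ℕ) : ZMod M) = -χ (n : ZMod M) := by
  rw [Nat.cast_sub hn, ZMod.natCast_self, zero_sub, ← neg_one_mul, map_mul, hχ]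
  ring

theorem half_odd (hM2 : M % 2 = 1) (χ : DirichletCharacter R M) (hχ : χ.Odd) :
    χ ((2 : ℕ) : ZMod M) * (M * HS χ) = (1 - 2 * χ ((2 : ℕ) : ZMod M)) * TT χ := by
  set h := (M - 1) / 2 with hh
  have hp1 : M = 2 * h + 1 := by omega
  set A' : R := ∑ a ∈ Icc 1 h, (a : R) * χ (a : ZMod M) with hA'
  have hS : HS χ = ∑ a ∈ Icc 1 h, χ (a : ZMod M) := by rw [HS, ← hh]
  -- reflection
  have e1 : TT χ = 2 * A' - M * HS χ := by
    have h1 : range M = insert 0 (Icc 1 h ∪ Icc (h + 1) (M - 1)) := by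
      ext n
      simp only [mem_insert, mem_union, mem_Icc, mem_range]
      omega
    have h2 : Disjoint (Icc 1 h) (Icc (h + 1) (M - 1)) := by
      rw [disjoint_left]
      intro n hn hn'
      rw [mem_Icc] at hn hn'
      omega
    rw [TT, h1, sum_insert (by simp), Nat.cast_zero, zero_mul, zero_add, sum_union h2]
    have h3 : ∑ n ∈ Icc (h + 1) (M - 1), (n : R) * χ (n : ZMod M) =
        ∑ n ∈ Icc 1 h, (((n : R) * χ (n : ZMod M)) - M * χ (n : ZMod M)) := by
      apply sum_nbij' (fun n => M - n) (fun n => M - n)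
      · intro n hn; rw [mem_Icc] at hn ⊢; omega
      · intro n hn; rw [mem_Icc] at hn ⊢; omega
      · intro n hn; rw [mem_Icc] at hn; omega
      · intro n hn; rw [mem_Icc] at hn; omega
      · intro n hn
        rw [mem_Icc] at hn
        rw [chi_refl χ hχ n (by omega), Nat.cast_sub (by omega : n ≤ M)]
        ring
    rw [h3, sum_sub_distrib, ← mul_sum, hS]
    ring
  -- parity
  have e2 : TT χ = χ ((2 : ℕ) : ZMod M) * (4 * A' - M * HS χ) := by
    have h1 : range M = insert 0 ((Icc 1 h).image (fun b => 2 * b) ∪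
        (Icc 1 h).image (fun b => M - 2 * b)) := by
      ext n
      simp only [mem_insert, mem_union, mem_image, mem_Icc, mem_range]
      constructor
      · intro hn
        rcases Nat.even_or_odd' n with ⟨k, hk | hk⟩
        · rcases Nat.eq_zero_or_pos k with rfl | hk0
          · left; omega
          · right; left; exact ⟨k, by omega, by omega⟩
        · right; right; exact ⟨h - k, by omega, by omega⟩
      · rintro (h | ⟨b, hb, rfl⟩ | ⟨b, hb, rfl⟩) <;> omega
    have h2 : Disjoint ((Icc 1 h).image (fun b => 2 * b)) ((Icc 1 h).image (fun b => M - 2 * b)) := by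
      rw [disjoint_left]
      intro n hn hn'
      rw [mem_image] at hn hn'
      obtain ⟨b, hb, rfl⟩ := hn
      obtain ⟨c, hc, hc'⟩ := hn'
      rw [mem_Icc] at hb hc
      omega
    have h0 : 0 ∉ ((Icc 1 h).image (fun b => 2 * b) ∪ (Icc 1 h).image (fun b => M - 2 * b)) := by
      simp only [mem_union, mem_image, mem_Icc, not_or, not_exists, not_and]
      constructor
      · intro b hb; omega
      · intro b hb; omega
    have i1 : Set.InjOn (fun b => 2 * b) ((Icc 1 h : Finset ℕ) : Set ℕ) := by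
      intro a _ b _ hab; simp only at hab; omega
    have i2 : Set.InjOn (fun b => M - 2 * b) ((Icc 1 h : Finset ℕ) : Set ℕ) := by
      intro a ha b hb hab
      rw [mem_coe, mem_Icc] at ha hb
      simp only at hab; omega
    rw [TT, h1, sum_insert h0, Nat.cast_zero, zero_mul, zero_add, sum_union h2,
      sum_image i1, sum_image i2, hS, hA', mul_sub, mul_sum,
      mul_sum, mul_sum, mul_sum, ← sum_sub_distrib, ← sum_add_distrib]
    apply sum_congr rfl
    intro b hb
    rw [mem_Icc] at hb
    rw [chi_refl χ hχ (2 * b) (by omega), Nat.cast_sub (by omega : 2 * b ≤ M), Nat.cast_mul,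
      Nat.cast_mul, map_mul]
    push_cast
    ring
  linear_combination 2 * χ ((2 : ℕ) : ZMod M) * e1 - e2

theorem half_even (m : ℕ) (hM : M = 2 * m) (hm : 1 ≤ m) (χ : DirichletCharacter R M) (hM0 : χ 0 = 0)
    (hE : ∀ n : ℕ, χ ((n + m : ℕ) : ZMod M) = - χ (n : ZMod M)) :
    M * HS χ = - 2 * TT χ := by
  have h1 : TT χ = ∑ n ∈ range m, (-(m : R)) * χ (n : ZMod M) := by
    have h2 : range M = range (m + m) := by rw [hM, two_mul]
    rw [TT, h2, sum_range_add, ← sum_add_distrib]
    apply sum_congr rfl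
    intro n _
    rw [add_comm m n, hE]
    push_cast
    ring
  have h3 : ∑ n ∈ range m, χ (n : ZMod M) = HS χ := by
    have h4 : range m = insert 0 (Icc 1 ((M - 1) / 2)) := by
      ext n
      simp only [mem_insert, mem_Icc, mem_range]
      omega
    rw [h4, sum_insert (by simp), Nat.cast_zero, hM0, zero_add, HS]
  rw [h1, ← mul_sum, h3]
  have h5 : (M : R) = 2 * m := by rw [hM]; push_cast; ring
  rw [h5]
  ring

/-- a primitive character of even modulus is antiperiodic with half the modulus -/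
theorem prim_even [IsDomain R] (m : ℕ) (hM : M = 2 * m) (hm : 1 ≤ m) (χ : DirichletCharacter R M)
    (hχ : χ.IsPrimitive) (n : ℕ) : χ ((n + m : ℕ) : ZMod M) = - χ (n : ZMod M) := by
  have hNZ : NeZero M := ⟨by omega⟩
  have hmM : m ∣ M := ⟨2, by omega⟩
  have hnf : ¬ χ.FactorsThrough m := by
    intro h
    have h1 := Nat.sInf_le (s := χ.conductorSet) h
    change χ.conductor ≤ m at h1
    rw [(DirichletCharacter.isPrimitive_def χ).mp hχ] at h1
    omega
  rw [DirichletCharacter.factorsThrough_iff_ker_unitsMap hmM] at hnf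
  rw [SetLike.not_le_iff_exists] at hnf
  obtain ⟨u, hu, hu'⟩ := hnf
  rw [MonoidHom.mem_ker] at hu hu'
  have hu1 : ((u : ZMod M).val : ZMod m) = 1 := by
    have h1 := congrArg (fun v : (ZMod m)ˣ => (v : ZMod m)) hu
    simp only [ZMod.unitsMap_val, Units.val_one] at h1
    rw [← h1, ZMod.natCast_val]
  have hu2 : (u : ZMod M).val < M := ZMod.val_lt _
  have hmod : (u : ZMod M).val ≡ 1 [MOD m] := by
    rw [← ZMod.natCast_eq_natCast_iff, hu1, Nat.cast_one]
  have hcase : (u : ZMod M) = 1 ∨ (u : ZMod M) = ((m + 1 : ℕ) : ZMod M) := by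
    rcases Nat.lt_or_ge (u : ZMod M).val 1 with h0 | h0
    · -- val = 0, so m = 1 and M = 2: unit 0 in ZMod 2 impossible
      exfalso
      have h1 : (u : ZMod M) = 0 := (ZMod.val_eq_zero _).mp (by omega)
      have h2 : Nontrivial (ZMod M) := ZMod.nontrivial_iff.mpr (by omega)
      exact u.ne_zero h1
    · have h1 : m ∣ (u : ZMod M).val - 1 := (Nat.modEq_iff_dvd' h0).mp hmod.symm
      obtain ⟨c, hc⟩ := h1
      have h2 : c < 2 := by
        by_contra h3
        push Not at h3
        have : m * 2 ≤ m * c := Nat.mul_le_mul_left _ h3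
        omega
      interval_cases c
      · left
        have h3 : (u : ZMod M).val = 1 := by omega
        rw [← ZMod.natCast_zmod_val (u : ZMod M), h3, Nat.cast_one]
      · right
        have h3 : (u : ZMod M).val = m + 1 := by omega
        rw [← ZMod.natCast_zmod_val (u : ZMod M), h3]
  have hχu : χ (u : ZMod M) ≠ 1 := by
    intro h
    apply hu'
    apply Units.ext
    rw [MulChar.coe_toUnitHom, h, Units.val_one]
  have hum : (u : ZMod M) = ((m + 1 : ℕ) : ZMod M) := by
    rcases hcase with h | h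
    · exfalso
      apply hχu
      rw [h, map_one]
    · exact h
  have hcop : (m + 1).Coprime M := by
    rw [← ZMod.isUnit_iff_coprime, ← hum]
    exact u.isUnit
  have hme : m % 2 = 0 := by
    by_contra h
    have h1 : 2 ∣ Nat.gcd (m + 1) M := Nat.dvd_gcd (by omega) (by omega)
    rw [hcop] at h1
    omega
  have hMM : (M : ZMod M) = 0 := ZMod.natCast_self M
  have hsq : χ (u : ZMod M) = -1 := by
    have h1 : (u : ZMod M) * u = 1 := by
      rw [hum, ← Nat.cast_mul]
      obtain ⟨l, hl⟩ : ∃ l, m = 2 * l := ⟨m / 2, by omega⟩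
      have h2 : (m + 1) * (m + 1) = 1 + M * (l + 1) := by
        rw [hM, hl]; ring
      rw [h2]
      push_cast
      rw [hMM]; ring
    have h2 : χ (u : ZMod M) * χ (u : ZMod M) = 1 := by rw [← map_mul, h1, map_one]
    rcases mul_self_eq_one_iff.mp h2 with h3 | h3
    · exact absurd h3 hχu
    · exact h3
  rcases Nat.mod_two_eq_zero_or_one n with hn | hn
  · have h1 : ∀ a : ℕ, a % 2 = 0 → χ (a : ZMod M) = 0 := by
      intro a ha
      apply MulChar.map_nonunit
      rw [ZMod.isUnit_iff_coprime]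
      intro h
      have h2 : 2 ∣ Nat.gcd a M := Nat.dvd_gcd (by omega) (by omega)
      rw [h] at h2
      omega
    rw [h1 n hn, h1 (n + m) (by omega), neg_zero]
  · have h1 : ((n + m : ℕ) : ZMod M) = (u : ZMod M) * (n : ZMod M) := by
      obtain ⟨l, hl⟩ : ∃ l, n = 2 * l + 1 := ⟨n / 2, by omega⟩
      rw [hum, ← Nat.cast_mul]
      have h2 : (m + 1) * n = (n + m) + M * l := by
        rw [hM, hl]; ring
      rw [h2]
      push_cast
      rw [hMM]; ring
    rw [h1, map_mul, hsq, neg_one_mul]

end Pool.Agent.U332.GX
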