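import Mathlib
import Pool.Agent.H916R2.OddChar
import Pool.Agent.U332.GX.Half

/-! # Nonvanishing of the half sums of primitive odd complex characters -/

namespace Pool.Agent.U332.GX

open Finset
open Pool.Agent.H916R2 (saw SS saw_zero exists_SS_ne_zero)

lemma sum_units {M : ℕ} [NeZero M] {A : Type} [AddCommMonoid A] (F : ZMod M → A)
    (h : ∀ k, ¬ IsUnit k → F k = 0) : ∑ t : (ZMod M)ˣ, F t = ∑ k : ZMod M, F k := by
  classical
  rw [← sum_subset (subset_univ (univ.filter (fun k : ZMod M => IsUnit k)))]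
  · refine sum_bij (fun t _ => (t : ZMod M)) ?_ ?_ ?_ ?_
    · intro t _; rw [mem_filter]; exact ⟨mem_univ _, t.isUnit⟩
    · intro t _ t' _ h; exact Units.ext h
    · intro k hk
      rw [mem_filter] at hk
      obtain ⟨t, rfl⟩ := hk.2
      exact ⟨t, mem_univ _, rfl⟩
    · intro t _; rfl
  · intro k _ hk
    rw [mem_filter] at hk
    push Not at hk
    exact h k (hk (mem_univ _))

lemma sum_zmod {M : ℕ} [NeZero M] {A : Type} [AddCommMonoid A] (F : ZMod M → A) :
    ∑ k : ZMod M, F k = ∑ n ∈ range M, F (n : ZMod M) := by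
  refine sum_bij (fun k _ => k.val) ?_ ?_ ?_ ?_
  · intro k _; rw [mem_range]; exact ZMod.val_lt k
  · intro k _ k' _ h; exact ZMod.val_injective M h
  · intro n hn
    rw [mem_range] at hn
    exact ⟨(n : ZMod M), mem_univ _, ZMod.val_cast_of_lt hn⟩
  · intro k _
    rw [ZMod.natCast_zmod_val]

variable {M : ℕ}

/-- for a primitive character and a non-unit `a` there is a unit `u` with `u a = a`, `χ u ≠ 1` -/
lemma exists_unit [NeZero M] (χ : DirichletCharacter ℂ M) (hχ : χ.IsPrimitive) (a : ZMod M) (ha : ¬ IsUnit a) :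
    ∃ u : (ZMod M)ˣ, (u : ZMod M) * a = a ∧ χ u ≠ 1 := by
  set g := Nat.gcd a.val M with hg
  have hM0 : 0 < M := NeZero.pos M
  have hgM : g ∣ M := Nat.gcd_dvd_right _ _
  have hga : g ∣ a.val := Nat.gcd_dvd_left _ _
  have hg0 : 0 < g := Nat.gcd_pos_of_pos_right _ hM0
  have hg1 : g ≠ 1 := by
    intro h
    apply ha
    rw [← ZMod.natCast_zmod_val a, ZMod.isUnit_iff_coprime]
    exact h
  obtain ⟨m, hm⟩ := hgM
  have hmM : m ∣ M := ⟨g, by rw [hm]; ring⟩
  have hm0 : 0 < m := by
    rcases Nat.eq_zero_or_pos m with h | h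
    · rw [h, mul_zero] at hm; omega
    · exact h
  have hlt : m < M := by
    rw [hm]
    have : 2 ≤ g := by omega
    nlinarith
  have hnf : ¬ χ.FactorsThrough m := by
    intro h
    have h1 := Nat.sInf_le (s := χ.conductorSet) h
    change χ.conductor ≤ m at h1
    rw [(DirichletCharacter.isPrimitive_def χ).mp hχ] at h1
    omega
  rw [DirichletCharacter.factorsThrough_iff_ker_unitsMap hmM, SetLike.not_le_iff_exists] at hnf
  obtain ⟨u, hu, hu'⟩ := hnf
  rw [MonoidHom.mem_ker] at hu hu'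
  have hχu : χ (u : ZMod M) ≠ 1 := by
    intro h
    apply hu'
    apply Units.ext
    rw [MulChar.coe_toUnitHom, h, Units.val_one]
  refine ⟨u, ?_, hχu⟩
  have hu1 : ((u : ZMod M).val : ZMod m) = 1 := by
    have h1 := congrArg (fun v : (ZMod m)ˣ => (v : ZMod m)) hu
    simp only [ZMod.unitsMap_val, Units.val_one] at h1
    rw [← h1, ZMod.natCast_val]
  obtain ⟨b, hb⟩ := hga
  have h2 : ((u : ZMod M).val : ℤ) ≡ 1 [ZMOD m] := by
    rw [← ZMod.intCast_eq_intCast_iff]
    push_cast
    exact_mod_cast hu1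
  obtain ⟨c, hc⟩ := h2.symm.dvd
  have h3 : ((((u : ZMod M).val : ℤ) * (a.val : ℤ) : ℤ) : ZMod M) = ((a.val : ℤ) : ZMod M) := by
    rw [ZMod.intCast_eq_intCast_iff]
    apply Int.ModEq.symm
    apply Int.modEq_of_dvd
    refine ⟨c * b, ?_⟩
    have h4 : ((u : ZMod M).val : ℤ) = 1 + m * c := by linarith
    have h5 : (M : ℤ) = g * m := by exact_mod_cast hm
    have h6 : (a.val : ℤ) = g * b := by exact_mod_cast hb
    rw [h4, h5, h6]
    ring
  push_cast at h3
  simpa using h3

theorem TT_ne (hM : 2 ≤ M) (χ : DirichletCharacter ℂ M) (hχ : χ.IsPrimitive) (hodd : χ.Odd) :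
    TT χ ≠ 0 := by
  have hNZ : NeZero M := ⟨by omega⟩
  intro h0
  have hχ1 : χ ≠ 1 := by
    intro h
    rw [h] at hodd
    unfold DirichletCharacter.Odd at hodd
    rw [MulChar.one_apply (isUnit_one.neg)] at hodd
    norm_num at hodd
  obtain ⟨a, ha⟩ := exists_SS_ne_zero χ hodd
  apply ha
  by_cases hu : IsUnit a
  · obtain ⟨u, rfl⟩ := hu
    have h1 : SS χ (u : ZMod M) = χ ((u⁻¹ : (ZMod M)ˣ) : ZMod M) *
        ∑ t : (ZMod M)ˣ, χ (t : ZMod M) * (saw (t : ZMod M) : ℂ) := by
      unfold SS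
      rw [mul_sum, ← Equiv.sum_comp (Equiv.mulRight u⁻¹)]
      apply sum_congr rfl
      intro t _
      rw [Equiv.coe_mulRight, Units.val_mul, map_mul]
      have : (t : ZMod M) * ((u⁻¹ : (ZMod M)ˣ) : ZMod M) * (u : ZMod M) = t := by
        rw [mul_assoc, ← Units.val_mul, inv_mul_cancel, Units.val_one, mul_one]
      rw [this]
      ring
    have h2 : ∑ t : (ZMod M)ˣ, χ (t : ZMod M) * (saw (t : ZMod M) : ℂ) =
        ∑ k : ZMod M, χ k * (saw k : ℂ) := by
      apply sum_units (fun k => χ k * (saw k : ℂ))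
      intro k hk
      rw [MulChar.map_nonunit _ hk, zero_mul]
    have h3 : ∑ k : ZMod M, χ k * (saw k : ℂ) = 2 * TT χ := by
      have h4 : ∑ k : ZMod M, χ k * (saw k : ℂ) =
          ∑ k : ZMod M, (2 * ((k.val : ℂ) * χ k) - M * χ k) := by
        apply sum_congr rfl
        intro k _
        unfold saw
        split_ifs with hk
        · have : Nontrivial (ZMod M) := ZMod.nontrivial_iff.mpr (by omega)
          rw [hk, MulChar.map_zero]; simp
        · push_cast; ring
      rw [h4, sum_sub_distrib, ← mul_sum, ← mul_sum, MulChar.sum_eq_zero_of_ne_one hχ1, mul_zero,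
        sub_zero, sum_zmod (fun k => (k.val : ℂ) * χ k)]
      congr 1
      apply sum_congr rfl
      intro n hn
      rw [mem_range] at hn
      rw [ZMod.val_cast_of_lt hn]
    rw [h1, h2, h3, h0, mul_zero, mul_zero]
  · obtain ⟨u, hua, hu1⟩ := exists_unit χ hχ a hu
    have h1 : SS χ a = χ (u : ZMod M) * SS χ a := by
      conv_lhs => unfold SS
      rw [← Equiv.sum_comp (Equiv.mulRight u)]
      unfold SS
      rw [mul_sum]
      apply sum_congr rfl
      intro t _
      rw [Equiv.coe_mulRight, Units.val_mul, map_mul, mul_assoc (t : ZMod M), hua]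
      ring
    have h2 : (1 - χ (u : ZMod M)) * SS χ a = 0 := by linear_combination h1
    rcases mul_eq_zero.mp h2 with h3 | h3
    · exact absurd (sub_eq_zero.mp h3).symm hu1
    · exact h3

/-- the half sum of a primitive odd complex character is not zero -/
theorem HS_ne (hM : 2 ≤ M) (χ : DirichletCharacter ℂ M) (hχ : χ.IsPrimitive) (hodd : χ.Odd) :
    HS χ ≠ 0 := by
  have hNZ : NeZero M := ⟨by omega⟩
  have hT := TT_ne hM χ hχ hodd
  intro h0
  apply hT
  have hnt : Nontrivial (ZMod M) := ZMod.nontrivial_iff.mpr (by omega)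
  rcases Nat.mod_two_eq_zero_or_one M with h | h
  · have h1 := half_even (M / 2) (by omega) (by omega) χ (MulChar.map_zero χ)
      (prim_even (M / 2) (by omega) (by omega) χ hχ)
    rw [h0, mul_zero] at h1
    have h2 : (-2 : ℂ) ≠ 0 := by norm_num
    exact (mul_eq_zero.mp h1.symm).resolve_left h2
  · have h1 := half_odd h χ hodd
    rw [h0, mul_zero, mul_zero] at h1
    refine (mul_eq_zero.mp h1.symm).resolve_left ?_
    intro h2
    have h3 : ‖χ ((2 : ℕ) : ZMod M)‖ = 1 := by
      have : IsUnit ((2 : ℕ) : ZMod M) := by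
        rw [ZMod.isUnit_iff_coprime]
        rw [Nat.coprime_comm]
        exact (Nat.odd_iff.mpr h).coprime_two_right
      obtain ⟨u, hu⟩ := this
      rw [← hu]
      exact DirichletCharacter.unit_norm_eq_one χ u
    have h4 : (2 : ℂ) * χ ((2 : ℕ) : ZMod M) = 1 := by linear_combination -h2
    have h5 := congrArg norm h4
    rw [norm_mul, h3] at h5
    norm_num at h5

end Pool.Agent.U332.GX
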