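import Mathlib
import Pool.Agent.U332.GX.Ne
import Pool.Agent.H343R2.PV

/-! # The characters `u ↦ z ^ i(u)` in different rings -/

namespace Pool.Agent.U332.GX

open Finset Polynomial

/-- a homomorphism `(ZMod M)ˣ → ℤ/d`, given by representatives -/
structure IX (M d : ℕ) where
  i : (ZMod M)ˣ → ℕ
  i_one : i 1 ≡ 0 [MOD d]
  i_mul : ∀ u v, i (u * v) ≡ i u + i v [MOD d]

namespace IX

variable {M d : ℕ} (D : IX M d) {R : Type} [CommRing R]

lemma pow_mod {z : R} (hz : z ^ d = 1) {a b : ℕ} (h : a ≡ b [MOD d]) : z ^ a = z ^ b := by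
  have h1 : ∀ n : ℕ, z ^ n = z ^ (n % d) := by
    intro n
    conv_lhs => rw [← Nat.div_add_mod n d, pow_add, pow_mul, hz, one_pow, one_mul]
  rw [h1 a, h1 b, h]

/-- the character `u ↦ z ^ i(u)` -/
noncomputable def chr (hd : d ≠ 0) (z : R) (hz : z ^ d = 1) : DirichletCharacter R M :=
  MulChar.ofUnitHom
    { toFun := fun u => Units.ofPowEqOne z d hz hd ^ D.i u
      map_one' := by
        apply Units.ext
        rw [Units.val_pow_eq_pow_val]
        show z ^ _ = _
        rw [pow_mod hz D.i_one, pow_zero, Units.val_one]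
      map_mul' := by
        intro u v
        apply Units.ext
        rw [Units.val_mul, Units.val_pow_eq_pow_val, Units.val_pow_eq_pow_val, Units.val_pow_eq_pow_val]
        show z ^ _ = z ^ _ * z ^ _
        rw [pow_mod hz (D.i_mul u v), pow_add] }

lemma chr_apply (hd : d ≠ 0) (z : R) (hz : z ^ d = 1) (u : (ZMod M)ˣ) :
    D.chr hd z hz (u : ZMod M) = z ^ D.i u := by
  unfold chr
  rw [MulChar.ofUnitHom_coe]
  show ((Units.ofPowEqOne z d hz hd ^ D.i u : Rˣ) : R) = _
  rw [Units.val_pow_eq_pow_val]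
  rfl

/-- the units in the lower half -/
def low (M : ℕ) [NeZero M] : Finset (ZMod M)ˣ :=
  Finset.filter (fun u : (ZMod M)ˣ => (u : ZMod M).val ≤ (M - 1) / 2) Finset.univ

/-- the polynomial of the half sum -/
noncomputable def f [NeZero M] : ℤ[X] := ∑ u ∈ low M, X ^ D.i u

lemma sum_low [NeZero M] (hM : 2 ≤ M) {A : Type} [AddCommMonoid A] (F : ZMod M → A)
    (hF : ∀ k, ¬ IsUnit k → F k = 0) :
    ∑ u ∈ low M, F (u : ZMod M) =
      ∑ n ∈ Icc 1 ((M - 1) / 2), F (n : ZMod M) := by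
  classical
  have hnt : Nontrivial (ZMod M) := ZMod.nontrivial_iff.mpr (by omega)
  rw [← sum_subset (s₁ := (Icc 1 ((M - 1) / 2)).filter (fun n : ℕ => IsUnit (n : ZMod M))) (filter_subset _ _)]
  · refine sum_bij (fun (u : (ZMod M)ˣ) _ => (u : ZMod M).val) ?_ ?_ ?_ ?_
    · intro u hu
      unfold low at hu
      rw [mem_filter] at hu ⊢
      rw [mem_Icc, ZMod.natCast_zmod_val]
      refine ⟨⟨Nat.pos_of_ne_zero ?_, hu.2⟩, u.isUnit⟩
      rw [Ne, ZMod.val_eq_zero]
      exact u.ne_zero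
    · intro u _ v _ h
      exact Units.ext (ZMod.val_injective M h)
    · intro a ha
      rw [mem_filter, mem_Icc] at ha
      obtain ⟨u, hu⟩ := ha.2
      have h1 : (u : ZMod M).val = a := by
        rw [hu, ZMod.val_natCast, Nat.mod_eq_of_lt (by omega)]
      refine ⟨u, ?_, h1⟩
      unfold low
      rw [mem_filter]
      exact ⟨mem_univ _, by rw [h1]; exact ha.1.2⟩
    · intro u _
      rw [ZMod.natCast_zmod_val]
  · intro n _ hn2
    apply hF
    intro h
    apply hn2
    rw [mem_filter]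
    exact ⟨by assumption, h⟩

lemma aeval_f [NeZero M] (hM : 2 ≤ M) (hd : d ≠ 0) (z : R) (hz : z ^ d = 1) :
    aeval z D.f = HS (D.chr hd z hz) := by
  unfold f HS
  rw [map_sum, ← sum_low hM (fun k => D.chr hd z hz k) (fun k hk => MulChar.map_nonunit _ hk)]
  apply sum_congr rfl
  intro u _
  rw [chr_apply, map_pow, aeval_X]

lemma ker_iff {z : R} (hz : IsPrimitiveRoot z d) (hd : d ≠ 0) (u : (ZMod M)ˣ) :
    D.chr hd z hz.pow_eq_one (u : ZMod M) = 1 ↔ d ∣ D.i u := by
  rw [chr_apply]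
  exact hz.pow_eq_one_iff_dvd _

lemma factors_iff [NeZero M] {z : R} (hz : IsPrimitiveRoot z d) (hd : d ≠ 0) {e : ℕ} (he : e ∣ M) :
    (D.chr hd z hz.pow_eq_one).FactorsThrough e ↔
      ∀ u : (ZMod M)ˣ, ZMod.unitsMap he u = 1 → d ∣ D.i u := by
  rw [DirichletCharacter.factorsThrough_iff_ker_unitsMap he, SetLike.le_def]
  apply forall_congr'
  intro u
  have h1 : (MulChar.toUnitHom (D.chr hd z hz.pow_eq_one)) u = 1 ↔
      D.chr hd z hz.pow_eq_one (u : ZMod M) = 1 := by
    rw [Units.ext_iff, MulChar.coe_toUnitHom, Units.val_one]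
  rw [MonoidHom.mem_ker, MonoidHom.mem_ker, ← D.ker_iff hz hd, h1]

lemma conductor_eq [NeZero M] {S : Type} [CommRing S] {z : R} (hz : IsPrimitiveRoot z d)
    {w : S} (hw : IsPrimitiveRoot w d) (hd : d ≠ 0) :
    (D.chr hd z hz.pow_eq_one).conductor = (D.chr hd w hw.pow_eq_one).conductor := by
  unfold DirichletCharacter.conductor
  congr 1
  ext e
  rw [DirichletCharacter.mem_conductorSet_iff, DirichletCharacter.mem_conductorSet_iff]
  constructor
  · intro h
    rw [D.factors_iff hw hd h.dvd]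
    rwa [D.factors_iff hz hd h.dvd] at h
  · intro h
    rw [D.factors_iff hz hd h.dvd]
    rwa [D.factors_iff hw hd h.dvd] at h

lemma prim_of [NeZero M] {S : Type} [CommRing S] {z : R} (hz : IsPrimitiveRoot z d)
    {w : S} (hw : IsPrimitiveRoot w d) (hd : d ≠ 0) (h : (D.chr hd z hz.pow_eq_one).IsPrimitive) :
    (D.chr hd w hw.pow_eq_one).IsPrimitive := by
  rw [DirichletCharacter.isPrimitive_def] at h ⊢
  rw [← D.conductor_eq hz hw hd, h]

lemma odd_of [IsDomain R] [CharZero R] {S : Type} [CommRing S] [IsDomain S] {z : R} (hz : IsPrimitiveRoot z d)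
    {w : S} (hw : IsPrimitiveRoot w d) (hd : d ≠ 0) (h : (D.chr hd z hz.pow_eq_one).Odd) :
    (D.chr hd w hw.pow_eq_one).Odd := by
  unfold DirichletCharacter.Odd at h ⊢
  have hu : ((-1 : (ZMod M)ˣ) : ZMod M) = -1 := by rw [Units.val_neg, Units.val_one]
  have h1 : ¬ d ∣ D.i (-1) := by
    rw [← D.ker_iff hz hd, hu, h]
    intro h2
    have h3 : (2 : R) = 0 := by linear_combination -h2
    exact two_ne_zero h3
  have h2 : d ∣ D.i ((-1) * (-1)) := by
    rw [neg_mul_neg, one_mul]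
    exact (Nat.modEq_zero_iff_dvd).mp D.i_one
  have h3 : D.chr hd w hw.pow_eq_one (((-1 : (ZMod M)ˣ) * (-1 : (ZMod M)ˣ) : (ZMod M)ˣ) : ZMod M) = 1 :=
    (D.ker_iff hw hd _).mpr h2
  rw [Units.val_mul, map_mul] at h3
  rcases mul_self_eq_one_iff.mp h3 with h4 | h4
  · exact absurd ((D.ker_iff hw hd _).mp h4) h1
  · rw [← hu, h4]

end IX

/-- every character with values in a domain with a primitive root of unity comes from an index -/
theorem exists_IX {M d : ℕ} {R : Type} [CommRing R] [IsDomain R] (χ : DirichletCharacter R M)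
    (hd : d ≠ 0) (hχ : χ ^ d = 1) {z : R} (hz : IsPrimitiveRoot z d) :
    ∃ D : IX M d, ∀ u : (ZMod M)ˣ, χ (u : ZMod M) = z ^ D.i u := by
  have hNZ : NeZero d := ⟨hd⟩
  have h1 : ∀ u : (ZMod M)ˣ, ∃ i : ℕ, i < d ∧ z ^ i = χ (u : ZMod M) := by
    intro u
    have h2 : χ (u : ZMod M) ^ d = 1 := by
      rw [← MulChar.pow_apply_coe, hχ, MulChar.one_apply_coe]
    exact hz.eq_pow_of_pow_eq_one h2
  choose i hi using h1
  have hmod : ∀ a b : ℕ, z ^ a = z ^ b → a ≡ b [MOD d] := by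
    intro a b h
    have key : ∀ a b : ℕ, a ≤ b → z ^ a = z ^ b → a ≡ b [MOD d] := by
      intro a b hab h
      have h3 : z ^ a * (z ^ (b - a) - 1) = 0 := by
        rw [mul_sub, ← pow_add, Nat.add_sub_cancel' hab, h]
        ring
      rcases mul_eq_zero.mp h3 with h4 | h4
      · exact absurd h4 (pow_ne_zero _ (hz.ne_zero hd))
      · exact (Nat.modEq_iff_dvd' hab).mpr ((hz.pow_eq_one_iff_dvd _).mp (sub_eq_zero.mp h4))
    rcases Nat.le_total a b with hab | hab
    · exact key a b hab h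
    · exact (key b a hab h.symm).symm
  refine ⟨⟨i, ?_, ?_⟩, fun u => (hi u).2.symm⟩
  · apply hmod
    rw [(hi 1).2, pow_zero, Units.val_one, map_one]
  · intro u v
    apply hmod
    rw [(hi _).2, pow_add, (hi u).2, (hi v).2, Units.val_mul, map_mul]

end Pool.Agent.U332.GX
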