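import Mathlib
import Pool.Agent.U332.GX.Half

/-! # Roots of unity and divisibility by `p` in Witt vectors -/

namespace Pool.Agent.U332.GX

open Finset WittVector

variable (p : ℕ) [hp : Fact p.Prime]

/-- the Witt vectors of the algebraic closure of `𝔽_p`: the integers of the completion of the maximal
unramified extension of `ℚ_p` -/
abbrev WW : Type := WittVector p (AlgebraicClosure (ZMod p))

lemma dich (x : WW p) : IsUnit x ∨ (p : WW p) ∣ x := by
  rcases eq_or_ne x 0 with h | h
  · right; rw [h]; exact dvd_zero _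
  · obtain ⟨m, b, hb⟩ := exists_eq_pow_p_mul' x h
    rcases Nat.eq_zero_or_pos m with hm | hm
    · left
      rw [hb, hm, pow_zero, one_mul]
      exact b.isUnit
    · right
      rw [hb]
      exact dvd_mul_of_dvd_left (dvd_pow_self _ hm.ne') _

lemma p_not_unit : ¬ IsUnit (p : WW p) := (WittVector.irreducible p).not_isUnit

lemma not_both {x : WW p} (h : (p : WW p) ∣ x) : ¬ IsUnit x := fun h1 =>
  p_not_unit p (isUnit_of_dvd_unit h h1)

lemma nat_dvd (n : ℕ) (h : (p : WW p) ∣ (n : WW p)) : p ∣ n := by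
  by_contra h1
  apply not_both p h
  have h2 : Nat.Coprime n p := ((Nat.Prime.coprime_iff_not_dvd hp.out).mpr h1).symm
  apply isUnit_of_coeff_zero_ne_zero
  have h3 : (n : WW p).coeff 0 = (n : AlgebraicClosure (ZMod p)) := by
    rw [← WittVector.constantCoeff_apply, map_natCast]
  rw [h3, Ne, CharP.cast_eq_zero_iff (AlgebraicClosure (ZMod p)) p]
  exact h1

instance charZero_WW : CharZero (WW p) := by
  apply charZero_of_inj_zero
  intro n hn
  by_contra h0
  obtain ⟨m, e, h1, h2⟩ : ∃ m e, n = p ^ e * m ∧ ¬ p ∣ m := by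
    obtain ⟨e, m, h1, h2⟩ := Nat.exists_eq_pow_mul_and_not_dvd h0 p hp.out.ne_one
    exact ⟨m, e, h2, h1⟩
  rw [h1, Nat.cast_mul, Nat.cast_pow] at hn
  rcases mul_eq_zero.mp hn with h3 | h3
  · exact pow_ne_zero _ (WittVector.p_nonzero p _) h3
  · exact h2 (nat_dvd p m (by rw [h3]; exact dvd_zero _))

lemma int_dvd (r : ℕ) (N : ℤ) (h : (p : WW p) ^ r ∣ (N : WW p)) : (p : ℤ) ^ r ∣ N := by
  rcases eq_or_ne N 0 with h0 | h0
  · rw [h0]; exact dvd_zero _
  · obtain ⟨e, m, h1, h2⟩ := Nat.exists_eq_pow_mul_and_not_dvd (Int.natAbs_ne_zero.mpr h0) p hp.out.ne_one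
    have h3 : (p : WW p) ^ r ∣ ((N.natAbs : ℕ) : WW p) := by
      have e : ((N.natAbs : ℕ) : WW p) = (N : WW p) ∨ ((N.natAbs : ℕ) : WW p) = -(N : WW p) := by
        rcases Int.natAbs_eq N with h4 | h4
        · left
          conv_rhs => rw [h4]
          rw [Int.cast_natCast]
        · right
          conv_rhs => rw [h4]
          rw [Int.cast_neg, Int.cast_natCast, neg_neg]
      rcases e with e | e
      · rw [e]; exact h
      · rw [e, dvd_neg]; exact h
    have h5 : r ≤ e := by
      by_contra hlt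
      push Not at hlt
      rw [h2] at h3
      push_cast at h3
      have h6 : r = e + (r - e) := by omega
      rw [h6, pow_add] at h3
      have h7 := (mul_dvd_mul_iff_left (pow_ne_zero e (WittVector.p_nonzero p (AlgebraicClosure (ZMod p))))).mp h3
      have h8 : (p : WW p) ∣ (m : WW p) := (dvd_pow_self _ (by omega)).trans h7
      exact h1 (nat_dvd p m h8)
    rw [← Int.dvd_natAbs, h2]
    push_cast
    exact (pow_dvd_pow _ h5).mul_right _

lemma exists_root (d : ℕ) (hd : ¬ p ∣ d) : ∃ z : WW p, IsPrimitiveRoot z d := by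
  have hne : NeZero ((d : ℕ) : AlgebraicClosure (ZMod p)) := by
    refine ⟨?_⟩
    rw [Ne, CharP.cast_eq_zero_iff (AlgebraicClosure (ZMod p)) p]
    exact hd
  obtain ⟨ζ, hζ⟩ := HasEnoughRootsOfUnity.exists_primitiveRoot (AlgebraicClosure (ZMod p)) d
  refine ⟨WittVector.teichmuller p ζ, ?_⟩
  apply hζ.map_of_injective (f := WittVector.teichmuller p)
  intro a b hab
  have := congrArg (fun x : WW p => x.coeff 0) hab
  simpa [WittVector.teichmuller_coeff_zero] using this

lemma one_sub_unit (d : ℕ) (hd : ¬ p ∣ d) (w : WW p) (hw : w ^ d = 1) (h1 : w ≠ 1) :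
    IsUnit (1 - w) := by
  rcases dich p (1 - w) with h | h
  · exact h
  · exfalso
    apply h1
    have h2 : (∑ i ∈ range d, w ^ i) * (w - 1) = 0 := by
      rw [geom_sum_mul, hw, sub_self]
    rcases mul_eq_zero.mp h2 with h3 | h3
    · exfalso
      have h4 : (p : WW p) ∣ (d : WW p) - ∑ i ∈ range d, w ^ i := by
        have h5 : (d : WW p) - ∑ i ∈ range d, w ^ i = ∑ i ∈ range d, (1 - w ^ i) := by
          rw [sum_sub_distrib, sum_const, card_range, nsmul_eq_mul, mul_one]
        rw [h5]
        apply dvd_sum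
        intro i _
        have h6 : (1 - w) ∣ 1 ^ i - w ^ i := sub_dvd_pow_sub_pow 1 w i
        rw [one_pow] at h6
        exact h.trans h6
      rw [h3, sub_zero] at h4
      exact hd (nat_dvd p d h4)
    · exact sub_eq_zero.mp h3

end Pool.Agent.U332.GX
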