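import Mathlib
import Pool.Agent.U332.GX.Witt
import Pool.Agent.U332.GX.Idx
import Pool.Agent.U332.OI.Norm

/-! # Non-units among the values `L_p(0, ω χ^j)` -/

namespace Pool.Agent.U332.GX

open Finset Polynomial

variable (p : ℕ) [hp : Fact p.Prime]

/-- the value `-(1 - ψ(p)) B_{1,ψ}` is a unit -/
def UnitVal {M : ℕ} (ψ : DirichletCharacter (WW p) M) : Prop :=
  ∃ u : (WW p)ˣ, -((1 - ψ ((p : ℕ) : ZMod M)) * TT ψ) = M * u

/-- `ω ψ` is trivial -/
def Triv {M : ℕ} (ψ : DirichletCharacter (WW p) M) : Prop :=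
  ∀ a : ℕ, a.Coprime M → (p : WW p) ∣ a * ψ (a : ZMod M) - 1

lemma dvd_of_not_triv {M : ℕ} (hM : 2 ≤ M) (ψ : DirichletCharacter (WW p) M) (h : ¬ Triv p ψ) :
    ∃ t : WW p, TT ψ = M * t := by
  have hNZ : NeZero M := ⟨by omega⟩
  unfold Triv at h
  push Not at h
  obtain ⟨a, ha, hna⟩ := h
  have hunit : IsUnit ((a : WW p) * ψ (a : ZMod M) - 1) := (dich p _).resolve_right hna
  obtain ⟨u, hu⟩ := (ZMod.isUnit_iff_coprime a M).mpr ha
  have h1 : TT ψ = ∑ k : ZMod M, (k.val : WW p) * ψ k := by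
    rw [sum_zmod (fun k : ZMod M => (k.val : WW p) * ψ k), TT]
    apply sum_congr rfl
    intro n hn
    rw [mem_range] at hn
    rw [ZMod.val_cast_of_lt hn]
  have h2 : TT ψ = ∑ k : ZMod M, ((((u : ZMod M) * k).val : ℕ) : WW p) * (ψ (a : ZMod M) * ψ k) := by
    rw [h1, ← Equiv.sum_comp (Units.mulLeft u)]
    apply sum_congr rfl
    intro k _
    rw [Units.mulLeft_apply, map_mul, hu]
  have h3 : ((a : WW p) * ψ (a : ZMod M) - 1) * TT ψ =
      M * ∑ k : ZMod M, ((a * k.val / M : ℕ) : WW p) * (ψ (a : ZMod M) * ψ k) := by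
    have h4 : ((a : WW p) * ψ (a : ZMod M) - 1) * TT ψ = ∑ k : ZMod M,
        ((a * k.val : ℕ) : WW p) * (ψ (a : ZMod M) * ψ k) -
        ∑ k : ZMod M, ((((u : ZMod M) * k).val : ℕ) : WW p) * (ψ (a : ZMod M) * ψ k) := by
      rw [← h2, sub_mul, one_mul, h1, mul_sum]
      congr 1
      apply sum_congr rfl
      intro k _
      push_cast
      ring
    rw [h4, ← sum_sub_distrib, mul_sum]
    apply sum_congr rfl
    intro k _
    have h5 : ((u : ZMod M) * k).val = a * k.val % M := by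
      rw [hu, ZMod.val_mul, ZMod.val_natCast, Nat.mod_mul_mod]
    have h6 : ((a * k.val : ℕ) : WW p) = ((a * k.val % M : ℕ) : WW p) + M * ((a * k.val / M : ℕ) : WW p) := by
      rw [← Nat.cast_mul, ← Nat.cast_add, Nat.mod_add_div]
    rw [h5, h6]
    ring
  obtain ⟨v, hv⟩ := hunit
  rw [← hv] at h3
  refine ⟨(v⁻¹ : (WW p)ˣ) * ∑ k : ZMod M, ((a * k.val / M : ℕ) : WW p) * (ψ (a : ZMod M) * ψ k), ?_⟩
  have h7 : TT ψ = (v⁻¹ : (WW p)ˣ) * (v * TT ψ) := by
    rw [← mul_assoc, Units.inv_mul, one_mul]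
  rw [h7, h3]
  ring

lemma dvd_TT {M d : ℕ} (hM : 2 ≤ M) (hd : ¬ p ∣ d) (ψ : DirichletCharacter (WW p) M) (hψ : ψ ^ d = 1)
    (hψp : ψ ((p : ℕ) : ZMod M) ≠ 1) (h1 : ¬ Triv p ψ) (h2 : ¬ UnitVal p ψ) :
    (p * M : WW p) ∣ TT ψ := by
  have hNZ : NeZero M := ⟨by omega⟩
  have hM0 : (M : WW p) ≠ 0 := by
    have : M ≠ 0 := by omega
    exact_mod_cast this
  obtain ⟨t, ht⟩ := dvd_of_not_triv p hM ψ h1
  have h3 : IsUnit (1 - ψ ((p : ℕ) : ZMod M)) := by
    by_cases hu : IsUnit ((p : ℕ) : ZMod M)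
    · apply one_sub_unit p d hd _ _ hψp
      obtain ⟨u, hu⟩ := hu
      rw [← hu, ← MulChar.pow_apply_coe, hψ, MulChar.one_apply_coe]
    · rw [MulChar.map_nonunit _ hu, sub_zero]
      exact isUnit_one
  have h4 : ¬ IsUnit t := by
    intro h
    apply h2
    obtain ⟨v, hv⟩ := (h3.mul h).neg
    refine ⟨v, ?_⟩
    rw [hv, ht]
    ring
  obtain ⟨s, hs⟩ := (dich p t).resolve_left h4
  refine ⟨s, ?_⟩
  rw [ht, hs]
  ring

lemma dvd_HS {M d : ℕ} (hM : 2 ≤ M) (hd : ¬ p ∣ d) (ψ : DirichletCharacter (WW p) M) (hψ : ψ ^ d = 1)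
    (hprim : ψ.IsPrimitive) (hodd : ψ.Odd)
    (hψp : ψ ((p : ℕ) : ZMod M) ≠ 1) (h1 : ¬ Triv p ψ) (h2 : ¬ UnitVal p ψ) :
    (p : WW p) ∣ HS ψ := by
  have hNZ : NeZero M := ⟨by omega⟩
  have hM0 : (M : WW p) ≠ 0 := by
    have : M ≠ 0 := by omega
    exact_mod_cast this
  have hnt : Nontrivial (ZMod M) := ZMod.nontrivial_iff.mpr (by omega)
  have h3 := dvd_TT p hM hd ψ hψ hψp h1 h2
  have h4 : (p * M : WW p) ∣ M * HS ψ := by
    rcases Nat.mod_two_eq_zero_or_one M with h | h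
    · rw [half_even (M / 2) (by omega) (by omega) ψ (MulChar.map_zero ψ)
        (prim_even (M / 2) (by omega) (by omega) ψ hprim)]
      exact dvd_mul_of_dvd_right h3 _
    · have h5 := half_odd h ψ hodd
      have h6 : IsUnit (ψ ((2 : ℕ) : ZMod M)) := by
        have : IsUnit ((2 : ℕ) : ZMod M) := by
          rw [ZMod.isUnit_iff_coprime, Nat.coprime_comm]
          exact (Nat.odd_iff.mpr h).coprime_two_right
        exact this.map ψ
      have h7 : (p * M : WW p) ∣ ψ ((2 : ℕ) : ZMod M) * (M * HS ψ) := by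
        rw [h5]
        exact dvd_mul_of_dvd_right h3 _
      exact (h6.dvd_mul_left).mp h7
  rw [mul_comm (p : WW p)] at h4
  exact (mul_dvd_mul_iff_left hM0).mp h4

open Classical in
/-- the exponents `j` for which `ω χ^j` is not trivial and `L_p(0, ω χ^j)` is not a unit -/
noncomputable def badSet {M : ℕ} (χ : DirichletCharacter (WW p) M) : Finset ℕ :=
  (range (orderOf χ)).filter fun j => j.Coprime (orderOf χ) ∧ ¬ Triv p (χ ^ j) ∧ ¬ UnitVal p (χ ^ j)

theorem orbit {M : ℕ} (χ : DirichletCharacter (WW p) M) (hd : ¬ p ∣ orderOf χ) (hd0 : 0 < orderOf χ)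
    (hprim : χ.IsPrimitive) (hodd : χ.Odd) (hχp : χ ((p : ℕ) : ZMod M) ≠ 1) (hM : 2 ≤ M) :
    (p : ℝ) ^ (2 * (badSet p χ).card) ≤ (M * (1 + Real.log M) ^ 2) ^ (Nat.totient (orderOf χ)) := by
  classical
  have hNZ : NeZero M := ⟨by omega⟩
  set d := orderOf χ with hdd
  have hd1 : d ≠ 0 := hd0.ne'
  have hχd : χ ^ d = 1 := pow_orderOf_eq_one χ
  obtain ⟨z, hz⟩ := exists_root p d hd
  obtain ⟨D, hD⟩ := exists_IX χ hd1 hχd hz
  obtain ⟨N, hN⟩ := Pool.Agent.U332.OI.exists_norm d D.f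
  -- the characters χ ^ j
  have hchi : ∀ j, ∀ hzj : (z ^ j) ^ d = 1, D.chr hd1 (z ^ j) hzj = χ ^ j := by
    intro j hzj
    apply MulChar.ext
    intro u
    rw [D.chr_apply, MulChar.pow_apply_coe, hD, ← pow_mul, ← pow_mul, mul_comm]
  have hχ1 : D.chr hd1 z hz.pow_eq_one = χ := by
    apply MulChar.ext
    intro u
    rw [D.chr_apply, hD]
  -- the p-adic side
  have hNp := hN (WW p) z hz
  have hprimz : ∀ j, j.Coprime d → IsPrimitiveRoot (z ^ j) d := fun j hj => hz.pow_of_coprime j hj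
  have hjfacts : ∀ j, j.Coprime d → (χ ^ j).IsPrimitive ∧ (χ ^ j).Odd ∧
      (χ ^ j) ((p : ℕ) : ZMod M) ≠ 1 := by
    intro j hj
    have h1 : D.chr hd1 (z ^ j) (hprimz j hj).pow_eq_one = χ ^ j := hchi j _
    refine ⟨?_, ?_, ?_⟩
    · rw [← h1]
      apply D.prim_of hz (hprimz j hj) hd1
      rw [hχ1]; exact hprim
    · rw [← h1]
      apply D.odd_of hz (hprimz j hj) hd1
      rw [hχ1]; exact hodd
    · by_cases hu : IsUnit ((p : ℕ) : ZMod M)
      · obtain ⟨u, hu⟩ := hu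
        intro h2
        apply hχp
        rw [← hu, ← hχ1]
        rw [← hu, ← h1] at h2
        exact (D.ker_iff hz hd1 u).mpr ((D.ker_iff (hprimz j hj) hd1 u).mp h2)
      · rw [MulChar.map_nonunit _ hu]
        exact zero_ne_one
  set I : Finset (WW p) := (badSet p χ).image (fun j => z ^ j) with hI
  have hbad : ∀ j ∈ badSet p χ, j < d ∧ j.Coprime d ∧ ¬ Triv p (χ ^ j) ∧ ¬ UnitVal p (χ ^ j) := by
    intro j hj
    unfold badSet at hj
    rw [mem_filter, mem_range] at hj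
    exact ⟨hj.1, hj.2.1, hj.2.2.1, hj.2.2.2⟩
  have hIcard : I.card = (badSet p χ).card := by
    rw [hI]
    apply card_image_of_injOn
    intro a ha b hb hab
    exact hz.pow_inj (hbad a ha).1 (hbad b hb).1 hab
  have hIsub : I ⊆ primitiveRoots d (WW p) := by
    intro x hx
    rw [hI, mem_image] at hx
    obtain ⟨j, hj, rfl⟩ := hx
    rw [mem_primitiveRoots hd0]
    exact hprimz j (hbad j hj).2.1
  have hIdvd : ∀ x ∈ I, (p : WW p) ∣ aeval x D.f := by
    intro x hx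
    rw [hI, mem_image] at hx
    obtain ⟨j, hj, rfl⟩ := hx
    obtain ⟨h1, h2, h3, h4⟩ := hbad j hj
    obtain ⟨h5, h6, h7⟩ := hjfacts j h2
    rw [D.aeval_f hM hd1 (z ^ j) (hprimz j h2).pow_eq_one, hchi]
    apply dvd_HS p hM hd (χ ^ j) _ h5 h6 h7 h3 h4
    rw [← pow_mul, mul_comm, pow_mul, hχd, one_pow]
  have hpN : (p : ℤ) ^ (badSet p χ).card ∣ N := by
    apply int_dvd p
    rw [hNp, ← hIcard, ← prod_const]
    exact (prod_dvd_prod_of_dvd _ _ hIdvd).trans (prod_dvd_prod_of_subset _ _ _ hIsub)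
  -- the complex side
  have hw := Complex.isPrimitiveRoot_exp d hd1
  have hNc := hN ℂ _ hw
  have hcplx : ∀ y ∈ primitiveRoots d ℂ, aeval y D.f ≠ 0 ∧
      ‖aeval y D.f‖ ≤ Real.sqrt M * (1 + Real.log M) := by
    intro y hy
    have hy1 : IsPrimitiveRoot y d := isPrimitiveRoot_of_mem_primitiveRoots hy
    have h1 : (D.chr hd1 y hy1.pow_eq_one).IsPrimitive := by
      apply D.prim_of hz hy1 hd1
      rw [hχ1]; exact hprim
    have h2 : (D.chr hd1 y hy1.pow_eq_one).Odd := by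
      apply D.odd_of hz hy1 hd1
      rw [hχ1]; exact hodd
    rw [D.aeval_f hM hd1 y hy1.pow_eq_one]
    exact ⟨HS_ne hM _ h1 h2, H343.PVaux.PV_plain M _ hM _ h1⟩
  have hN0 : N ≠ 0 := by
    intro h0
    rw [h0, Int.cast_zero, eq_comm, prod_eq_zero_iff] at hNc
    obtain ⟨y, hy, hy0⟩ := hNc
    exact (hcplx y hy).1 hy0
  have hcard : (primitiveRoots d ℂ).card = Nat.totient d := hw.card_primitiveRoots
  have hM0 : (0 : ℝ) ≤ M := by positivity
  have hM1 : (1 : ℝ) ≤ M := by exact_mod_cast (by omega : 1 ≤ M)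
  have hlog : 0 ≤ Real.log M := Real.log_nonneg hM1
  have h1 : ‖(N : ℂ)‖ ≤ (Real.sqrt M * (1 + Real.log M)) ^ (Nat.totient d) := by
    rw [hNc, norm_prod, ← hcard, ← prod_const]
    exact prod_le_prod (fun _ _ => norm_nonneg _) fun y hy => (hcplx y hy).2
  have h2 : (p : ℝ) ^ (badSet p χ).card ≤ ‖(N : ℂ)‖ := by
    rw [Complex.norm_intCast]
    have h5 := Int.le_of_dvd (abs_pos.mpr hN0) ((dvd_abs _ _).mpr hpN)
    exact_mod_cast h5
  calc (p : ℝ) ^ (2 * (badSet p χ).card) = ((p : ℝ) ^ (badSet p χ).card) ^ 2 := by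
        rw [mul_comm, pow_mul]
    _ ≤ ((Real.sqrt M * (1 + Real.log M)) ^ (Nat.totient d)) ^ 2 := by
        gcongr
        exact h2.trans h1
    _ = (M * (1 + Real.log M) ^ 2) ^ (Nat.totient d) := by
        rw [← pow_mul, mul_comm _ 2, pow_mul, mul_pow, Real.sq_sqrt hM0]

end Pool.Agent.U332.GX
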