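import Mathlib
import Pool.Agent.U332.GX.Orb
import Pool.Agent.U332.GX.Cnt

/-! # The number of even eigenspaces modulo `p N` without unit value -/

namespace Pool.Agent.U332.GX

open Finset

variable (p : ℕ) [hp : Fact p.Prime]

lemma prim_pow {R : Type} [CommRing R] [IsDomain R] {M : ℕ} [NeZero M] (χ : DirichletCharacter R M)
    (h : χ.IsPrimitive) {j : ℕ} (hj : j.Coprime (orderOf χ)) : (χ ^ j).IsPrimitive := by
  rw [DirichletCharacter.isPrimitive_def] at h ⊢
  obtain ⟨l, hl⟩ := exists_pow_eq_self_of_coprime (n := j) (x := χ) hj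
  have h1 : χ.conductor ∣ (χ ^ j).conductor := by
    have h2 := DirichletCharacter.conductor_pow_dvd (χ ^ j) l
    rwa [hl] at h2
  rw [h] at h1
  exact Nat.dvd_antisymm (DirichletCharacter.conductor_dvd_level _) h1

/-- The character `ψ` modulo `L` is good: for the primitive character `χ` modulo `M` which induces `ψ`,
`ω χ` is trivial or `L_p(0, ω χ)` is a unit. -/
def Good {L : ℕ} (ψ : DirichletCharacter (WW p) L) : Prop :=
  ∃ (M : ℕ) (h : M ∣ L) (χ : DirichletCharacter (WW p) M), χ.IsPrimitive ∧
    DirichletCharacter.changeLevel h χ = ψ ∧ (Triv p χ ∨ UnitVal p χ)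

theorem enough (n : ℕ) [NeZero n] (h : ¬ p ∣ n) : HasEnoughRootsOfUnity (WW p) n where
  prim := exists_root p n h
  cyc := inferInstance

omit hp in
lemma exp_not_dvd {n : ℕ} [NeZero n] (h : ¬ p ∣ n.totient) : ¬ p ∣ Monoid.exponent (ZMod n)ˣ := by
  intro h1
  apply h
  have h2 : Monoid.exponent (ZMod n)ˣ ∣ n.totient := by
    rw [← ZMod.card_units_eq_totient n]
    exact Group.exponent_dvd_card
  exact h1.trans h2

lemma card_chars {n : ℕ} [NeZero n] (h : ¬ p ∣ n.totient) :
    Nat.card (DirichletCharacter (WW p) n) = n.totient := by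
  have hne : NeZero (Monoid.exponent (ZMod n)ˣ) := ⟨Monoid.exponent_ne_zero_of_finite⟩
  have := enough p (Monoid.exponent (ZMod n)ˣ) (exp_not_dvd p h)
  exact DirichletCharacter.card_eq_totient_of_hasEnoughRootsOfUnity (WW p) n

open Classical in
/-- the odd characters -/
noncomputable def oddSet (L : ℕ) : Finset (DirichletCharacter (WW p) L) :=
  univ.filter fun ψ => ψ.Odd

lemma card_odd {L : ℕ} [NeZero L] (hL : 3 ≤ L) (h : ¬ p ∣ L.totient) :
    2 * (oddSet p L).card = L.totient := by
  classical
  have hne : NeZero (Monoid.exponent (ZMod L)ˣ) := ⟨Monoid.exponent_ne_zero_of_finite⟩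
  have := enough p (Monoid.exponent (ZMod L)ˣ) (exp_not_dvd p h)
  have hneg : (-1 : ZMod L) ≠ 1 := by
    intro h1
    have h2 : ((2 : ℕ) : ZMod L) = 0 := by
      push_cast
      have h3 : (1 : ZMod L) + 1 = 0 := by nth_rewrite 1 [← h1]; ring
      rw [← h3]; ring
    rw [ZMod.natCast_eq_zero_iff] at h2
    have := Nat.le_of_dvd (by norm_num) h2
    omega
  obtain ⟨ψ0, hψ0⟩ := DirichletCharacter.exists_apply_ne_one_of_hasEnoughRootsOfUnity (WW p) hneg
  have hodd0 : ψ0.Odd := by
    rcases ψ0.even_or_odd with h1 | h1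
    · exact absurd h1 hψ0
    · exact h1
  set E : Finset (DirichletCharacter (WW p) L) := univ.filter fun ψ => ψ.Even with hE
  have h2 : ((-1 : WW p)) ≠ 1 := by
    intro h1
    have h3 : (2 : WW p) = 0 := by linear_combination -h1
    exact two_ne_zero h3
  have h1 : (oddSet p L).card = E.card := by
    apply card_bij' (fun ψ _ => ψ0 * ψ) (fun ψ _ => ψ0⁻¹ * ψ)
    · intro ψ hψ
      unfold oddSet at hψ
      rw [mem_filter] at hψ ⊢
      refine ⟨mem_univ _, ?_⟩
      unfold DirichletCharacter.Even
      rw [MulChar.mul_apply, hodd0, hψ.2]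
      ring
    · intro ψ hψ
      unfold oddSet
      rw [mem_filter] at hψ ⊢
      refine ⟨mem_univ _, ?_⟩
      have h3 : (ψ0 * (ψ0⁻¹ * ψ)) (-1) = 1 := by
        rw [mul_inv_cancel_left]
        exact hψ.2
      rw [MulChar.mul_apply, hodd0] at h3
      unfold DirichletCharacter.Odd
      linear_combination -h3
    · intro ψ _
      rw [inv_mul_cancel_left]
    · intro ψ _
      rw [mul_inv_cancel_left]
  have h3 : (oddSet p L).card + E.card = Fintype.card (DirichletCharacter (WW p) L) := by
    rw [← card_univ, ← card_union_of_disjoint]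
    · congr 1
      apply eq_univ_of_forall
      intro ψ
      rw [mem_union]
      rcases ψ.even_or_odd with h1 | h1
      · right; rw [hE, mem_filter]; exact ⟨mem_univ _, h1⟩
      · left; unfold oddSet; rw [mem_filter]; exact ⟨mem_univ _, h1⟩
    · rw [disjoint_left]
      intro ψ h4 h5
      unfold oddSet at h4
      rw [mem_filter] at h4 h5
      have h6 : (-1 : WW p) = 1 := by rw [← h4.2, h5.2]
      exact h2 h6
  rw [← Nat.card_eq_fintype_card, card_chars p h] at h3
  omega

lemma log_bound {p : ℕ} (hp1 : 1 < p) {M L : ℕ} (hM : 1 ≤ M) (hML : M ≤ L) {r m : ℕ}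
    (h : (p : ℝ) ^ (2 * r) ≤ (M * (1 + Real.log M) ^ 2) ^ m) :
    (r : ℝ) ≤ (Real.log (L * (1 + Real.log L) ^ 2) / (2 * Real.log p)) * m := by
  have hp0 : (1 : ℝ) < p := by exact_mod_cast hp1
  have hlp : 0 < Real.log p := Real.log_pos hp0
  have hM1 : (1 : ℝ) ≤ M := by exact_mod_cast hM
  have hML1 : (M : ℝ) ≤ L := by exact_mod_cast hML
  have hlM : 0 ≤ Real.log M := Real.log_nonneg hM1
  have hlML : Real.log M ≤ Real.log L := Real.log_le_log (by linarith) hML1
  have h1 : (p : ℝ) ^ (2 * r) ≤ (L * (1 + Real.log L) ^ 2) ^ m := by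
    refine h.trans ?_
    apply pow_le_pow_left₀ (by positivity)
    gcongr
  have h2 := Real.log_le_log (by positivity) h1
  rw [Real.log_pow, Real.log_pow] at h2
  push_cast at h2
  rw [div_mul_eq_mul_div, le_div_iff₀ (by positivity)]
  linarith

open Classical in
theorem ramified {N : ℕ} (hN : N ≠ 0) (h1 : ¬ p ∣ N) (h2 : ¬ p ∣ N.totient)
    (h3 : 3 ≤ p) :
    (((oddSet p (p * N)).filter fun ψ => ¬ Good p ψ ∧ ¬ ψ.FactorsThrough N).card : ℝ) ≤
      (Real.log ((p * N : ℕ) * (1 + Real.log (p * N : ℕ)) ^ 2) / (2 * Real.log p)) *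
        (oddSet p (p * N)).card := by
  classical
  have hNZ : NeZero (p * N) := ⟨Nat.mul_ne_zero hp.out.ne_zero hN⟩
  have hp1 := hp.out.one_lt
  have hL1 : 1 ≤ p * N := Nat.one_le_iff_ne_zero.mpr hNZ.out
  have hL2 : (1 : ℝ) ≤ ((p * N : ℕ) : ℝ) := by exact_mod_cast hL1
  have hcop : p.Coprime N := (Nat.Prime.coprime_iff_not_dvd hp.out).mpr h1
  have htot : ¬ p ∣ (p * N).totient := by
    rw [Nat.totient_mul hcop, Nat.totient_prime hp.out]
    intro h4
    rcases (Nat.Prime.dvd_mul hp.out).mp h4 with h5 | h5
    · have := Nat.le_of_dvd (by omega) h5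
      omega
    · exact h2 h5
  have hexp : ∀ x : DirichletCharacter (WW p) (p * N), ¬ p ∣ orderOf x := by
    intro x h4
    apply htot
    rw [← card_chars p htot]
    exact h4.trans (orderOf_dvd_natCard x)
  apply count
  · intro x hx
    rw [mem_filter] at hx
    exact hx.1
  · -- powers of odd characters
    intro x hx j hj
    unfold oddSet at hx ⊢
    rw [mem_filter] at hx ⊢
    refine ⟨mem_univ _, ?_⟩
    have hx1 : x (-1) = -1 := hx.2
    have hu : ((-1 : (ZMod (p * N))ˣ) : ZMod (p * N)) = -1 := by rw [Units.val_neg, Units.val_one]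
    have h4 : (-1 : WW p) ^ orderOf x = 1 := by
      rw [← hx1, ← hu, ← MulChar.pow_apply_coe, pow_orderOf_eq_one, MulChar.one_apply_coe]
    have h5 : Even (orderOf x) := by
      rcases Nat.even_or_odd (orderOf x) with h6 | h6
      · exact h6
      · exfalso
        rw [h6.neg_one_pow] at h4
        have h7 : (2 : WW p) = 0 := by linear_combination -h4
        exact two_ne_zero h7
    have h6 : Odd j := by
      rcases Nat.even_or_odd j with h6 | h6
      · exfalso
        have h7 := Nat.dvd_gcd h6.two_dvd h5.two_dvd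
        rw [hj] at h7
        omega
      · exact h6
    unfold DirichletCharacter.Odd
    rw [← hu, MulChar.pow_apply_coe, hu, hx1, h6.neg_one_pow]
  · apply div_nonneg
    · apply Real.log_nonneg
      have : (1 : ℝ) ≤ (1 + Real.log ((p * N : ℕ) : ℝ)) ^ 2 := by
        have h4 := Real.log_nonneg hL2
        nlinarith
      nlinarith
    · have : (1 : ℝ) < p := by exact_mod_cast hp1
      have := Real.log_pos this
      positivity
  · intro x hx
    by_cases hfac : x.FactorsThrough N
    · -- the set is empty
      have h4 : (range (orderOf x)).filter (fun j => j.Coprime (orderOf x) ∧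
          x ^ j ∈ (oddSet p (p * N)).filter fun ψ => ¬ Good p ψ ∧ ¬ ψ.FactorsThrough N) = ∅ := by
        rw [filter_eq_empty_iff]
        rintro j _ ⟨_, h5⟩
        rw [mem_filter] at h5
        apply h5.2.2
        obtain ⟨hd, χ₀, hχ₀⟩ := hfac
        exact ⟨hd, χ₀ ^ j, by rw [hχ₀, map_pow]⟩
      rw [h4, card_empty, Nat.cast_zero]
      apply mul_nonneg _ (Nat.cast_nonneg _)
      apply div_nonneg
      · apply Real.log_nonneg
        have : (1 : ℝ) ≤ (1 + Real.log ((p * N : ℕ) : ℝ)) ^ 2 := by
          have h4 := Real.log_nonneg hL2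
          nlinarith
        nlinarith
      · have : (1 : ℝ) < p := by exact_mod_cast hp1
        have := Real.log_pos this
        positivity
    · set M := x.conductor with hMdef
      have hML : M ∣ p * N := x.conductor_dvd_level
      set χ : DirichletCharacter (WW p) M := x.primitiveCharacter with hχdef
      have hχ : DirichletCharacter.changeLevel hML χ = x := x.changeLevel_primitiveCharacter
      have hprim : χ.IsPrimitive := x.primitiveCharacter_isPrimitive
      have hM0 : M ≠ 0 := x.conductor_ne_zero
      have hMZ : NeZero M := ⟨hM0⟩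
      have hMle : M ≤ p * N := Nat.le_of_dvd hL1 hML
      have hpM : p ∣ M := by
        by_contra h4
        apply hfac
        have h5 : M.Coprime p := ((Nat.Prime.coprime_iff_not_dvd hp.out).mpr h4).symm
        have h6 : M ∣ N := h5.dvd_of_dvd_mul_left hML
        exact DirichletCharacter.FactorsThrough.mono x x.factorsThrough_conductor h6
          ⟨p, mul_comm p N⟩
      have hM2 : 2 ≤ M := (hp.out.two_le).trans (Nat.le_of_dvd (Nat.pos_of_ne_zero hM0) hpM)
      have hord : orderOf χ = orderOf x := by
        rw [← hχ]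
        exact (orderOf_injective (DirichletCharacter.changeLevel hML)
          (DirichletCharacter.changeLevel_injective hML) χ).symm
      have hodd : χ.Odd := by
        unfold oddSet at hx
        rw [mem_filter] at hx
        have hx1 : x (-1) = -1 := hx.2
        unfold DirichletCharacter.Odd
        have h4 := DirichletCharacter.changeLevel_eq_cast_of_dvd χ hML (-1)
        rw [hχ] at h4
        rw [Units.val_neg, Units.val_one, hx1] at h4
        rw [h4]
        congr 1
        rw [ZMod.cast_neg hML, ZMod.cast_one hML]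
      have hχp : χ ((p : ℕ) : ZMod M) ≠ 1 := by
        rw [MulChar.map_nonunit]
        · exact zero_ne_one
        · rw [ZMod.isUnit_iff_coprime]
          intro h4
          have h5 := Nat.dvd_gcd (dvd_refl p) hpM
          rw [h4] at h5
          exact hp.out.one_lt.ne' (Nat.dvd_one.mp h5)
      have h4 := orbit p χ (by rw [hord]; exact hexp x) (orderOf_pos χ) hprim hodd hχp hM2
      have h5 := log_bound (L := p * N) hp1 (by omega) hMle h4
      rw [hord] at h5
      refine le_trans ?_ h5
      have h6 : ((range (orderOf x)).filter (fun j => j.Coprime (orderOf x) ∧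
          x ^ j ∈ (oddSet p (p * N)).filter fun ψ => ¬ Good p ψ ∧ ¬ ψ.FactorsThrough N)).card ≤
          (badSet p χ).card := by
        apply card_le_card
        intro j hj
        unfold badSet
        rw [mem_filter, mem_range] at hj ⊢
        obtain ⟨h7, h8, h9⟩ := hj
        rw [mem_filter] at h9
        rw [hord]
        refine ⟨h7, h8, ?_⟩
        by_contra h10
        apply h9.2.1
        refine ⟨M, hML, χ ^ j, prim_pow χ hprim (by rw [hord]; exact h8), by rw [map_pow, hχ], ?_⟩
        tauto
      exact_mod_cast h6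

end Pool.Agent.U332.GX
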