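import Mathlib
import Pool.Agent.U332.GX.Tot

/-! # Asymptotics, and the number of good characters modulo `p N` -/

namespace Pool.Agent.U332.GX

open Finset

lemma asym (η ε : ℝ) (hη : 0 ≤ η) (hε : 0 < ε) : ∃ P : ℕ, 3 ≤ P ∧ ∀ p N : ℕ, P ≤ p → 1 ≤ N →
    (N : ℝ) ≤ (p : ℝ) ^ η →
    Real.log ((p * N : ℕ) * (1 + Real.log (p * N : ℕ)) ^ 2) / (2 * Real.log p) + 2 / ((p : ℝ) - 1) ≤
      (1 + η) / 2 + ε := by
  set X : ℝ := max 1 (16 * (1 + (1 + η)) / ε ^ 2) with hX
  refine ⟨max 3 (max ⌈Real.exp X⌉₊ ⌈1 + 4 / ε⌉₊), le_max_left _ _, ?_⟩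
  intro p N hp hN hNp
  have hp3 : 3 ≤ p := (le_max_left _ _).trans hp
  have hp4 : Real.exp X ≤ p := by
    have h1 := (le_max_left _ _).trans ((le_max_right _ _).trans hp)
    exact (Nat.le_ceil _).trans (by exact_mod_cast h1)
  have hp5 : 1 + 4 / ε ≤ p := by
    have h1 := (le_max_right _ _).trans ((le_max_right _ _).trans hp)
    exact (Nat.le_ceil _).trans (by exact_mod_cast h1)
  have hp0 : (0 : ℝ) < p := by positivity
  set x := Real.log p with hx
  have hxX : X ≤ x := by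
    rw [hx, Real.le_log_iff_exp_le hp0]
    exact hp4
  have hx1 : 1 ≤ x := (le_max_left _ _).trans hxX
  have hx2 : 16 * (1 + (1 + η)) / ε ^ 2 ≤ x := (le_max_right _ _).trans hxX
  have hN0 : (0 : ℝ) < N := by exact_mod_cast hN
  have hN1 : (1 : ℝ) ≤ N := by exact_mod_cast hN
  have hlN : Real.log N ≤ η * x := by
    have h1 := Real.log_le_log hN0 hNp
    rwa [Real.log_rpow hp0] at h1
  have hlN0 : 0 ≤ Real.log N := Real.log_nonneg hN1
  have hL : Real.log ((p * N : ℕ) : ℝ) = x + Real.log N := by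
    rw [Nat.cast_mul, Real.log_mul hp0.ne' hN0.ne']
  have hL1 : Real.log ((p * N : ℕ) : ℝ) ≤ (1 + η) * x := by rw [hL]; linarith
  have hL0 : 0 ≤ Real.log ((p * N : ℕ) : ℝ) := by rw [hL]; linarith
  have hpN : (0 : ℝ) < ((p * N : ℕ) : ℝ) := by push_cast; positivity
  have h1 : Real.log ((p * N : ℕ) * (1 + Real.log (p * N : ℕ)) ^ 2) ≤
      (1 + η) * x + 2 * Real.log (1 + (1 + η) * x) := by
    rw [Real.log_mul hpN.ne' (by positivity), Real.log_pow]
    have h2 : Real.log (1 + Real.log ((p * N : ℕ) : ℝ)) ≤ Real.log (1 + (1 + η) * x) := by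
      apply Real.log_le_log (by linarith)
      linarith
    push_cast at h2 hL1 ⊢
    linarith
  have h2 : Real.log (1 + (1 + η) * x) ≤ (ε / 2) * x := by
    have h3 : (0 : ℝ) ≤ 1 + (1 + η) * x := by positivity
    have h4 : Real.log (1 + (1 + η) * x) ≤ 2 * Real.sqrt (1 + (1 + η) * x) := by
      have h5 : (0 : ℝ) < 1 + (1 + η) * x := by positivity
      have h6 := Real.log_le_sub_one_of_pos (Real.sqrt_pos.mpr h5)
      rw [Real.log_sqrt h3] at h6
      linarith
    have h5 : Real.sqrt (1 + (1 + η) * x) ≤ (ε / 4) * x := by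
      rw [Real.sqrt_le_left (by positivity)]
      have h6 : 1 + (1 + η) * x ≤ (1 + (1 + η)) * x := by nlinarith
      refine h6.trans ?_
      rw [div_le_iff₀ (by positivity)] at hx2
      nlinarith [mul_pos hε hε]
    linarith
  have h3 : 2 / ((p : ℝ) - 1) ≤ ε / 2 := by
    have h4 : 4 / ε ≤ (p : ℝ) - 1 := by linarith
    have h5 : 0 < 4 / ε := by positivity
    rw [div_le_iff₀ (by linarith)]
    rw [div_le_iff₀ hε] at h4
    linarith
  have h4 : Real.log ((p * N : ℕ) * (1 + Real.log (p * N : ℕ)) ^ 2) / (2 * x) ≤ (1 + η) / 2 + ε / 2 := by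
    rw [div_le_iff₀ (by positivity)]
    nlinarith
  linarith

variable (p : ℕ) [hp : Fact p.Prime]

open Classical in
theorem total {N : ℕ} (hN : N ≠ 0) (h1 : ¬ p ∣ N) (h2 : ¬ p ∣ N.totient) (h3 : 3 ≤ p) {c : ℝ}
    (hc : Real.log ((p * N : ℕ) * (1 + Real.log (p * N : ℕ)) ^ 2) / (2 * Real.log p) +
      2 / ((p : ℝ) - 1) ≤ c) :
    (1 - c) * (Nat.totient (p * N) / 2) ≤ (((oddSet p (p * N)).filter fun ψ => Good p ψ).card : ℝ) := by
  have hNZ : NeZero (p * N) := ⟨Nat.mul_ne_zero hp.out.ne_zero hN⟩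
  have hNN : NeZero N := ⟨hN⟩
  have hcop : p.Coprime N := (Nat.Prime.coprime_iff_not_dvd hp.out).mpr h1
  have hφ : (p * N).totient = (p - 1) * N.totient := by
    rw [Nat.totient_mul hcop, Nat.totient_prime hp.out]
  have htot : ¬ p ∣ (p * N).totient := by
    rw [hφ]
    intro h4
    rcases (Nat.Prime.dvd_mul hp.out).mp h4 with h5 | h5
    · have := Nat.le_of_dvd (by omega) h5
      omega
    · exact h2 h5
  have hL3 : 3 ≤ p * N := h3.trans (Nat.le_mul_of_pos_right _ (Nat.pos_of_ne_zero hN))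
  have hO := card_odd p hL3 htot
  set O := oddSet p (p * N) with hOdef
  have hO1 : (O.card : ℝ) = Nat.totient (p * N) / 2 := by
    have : (2 : ℝ) * O.card = Nat.totient (p * N) := by exact_mod_cast hO
    linarith
  have hram := ramified p hN h1 h2 h3
  rw [← hOdef] at hram
  -- the unramified ones
  have hunr : ((O.filter fun ψ => ¬ Good p ψ ∧ ψ.FactorsThrough N).card : ℝ) ≤ N.totient := by
    have h4 : (O.filter fun ψ => ¬ Good p ψ ∧ ψ.FactorsThrough N).card ≤
        Nat.card (DirichletCharacter (WW p) N) := by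
      rw [Nat.card_eq_fintype_card, ← card_univ]
      refine (card_le_card (t := (univ : Finset (DirichletCharacter (WW p) N)).image
        (DirichletCharacter.changeLevel (⟨p, mul_comm p N⟩ : N ∣ p * N))) ?_).trans card_image_le
      intro ψ hψ
      rw [mem_filter] at hψ
      obtain ⟨hd, χ₀, hχ₀⟩ := hψ.2.2
      rw [mem_image]
      exact ⟨χ₀, mem_univ _, hχ₀.symm⟩
    rw [card_chars p h2] at h4
    exact_mod_cast h4
  have hsplit : (O.card : ℝ) = ((O.filter fun ψ => Good p ψ).card : ℝ) +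
      ((O.filter fun ψ => ¬ Good p ψ ∧ ¬ ψ.FactorsThrough N).card : ℝ) +
      ((O.filter fun ψ => ¬ Good p ψ ∧ ψ.FactorsThrough N).card : ℝ) := by
    have h4 := card_filter_add_card_filter_not (s := O) (fun ψ => Good p ψ)
    have h5 := card_filter_add_card_filter_not (s := O.filter fun ψ => ¬ Good p ψ) (fun ψ => ψ.FactorsThrough N)
    rw [filter_filter, filter_filter] at h5
    have h6 : O.card = (O.filter fun ψ => Good p ψ).card +
      (O.filter fun ψ => ¬ Good p ψ ∧ ¬ ψ.FactorsThrough N).card +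
      (O.filter fun ψ => ¬ Good p ψ ∧ ψ.FactorsThrough N).card := by omega
    exact_mod_cast h6
  have hp1 : (0 : ℝ) < (p : ℝ) - 1 := by
    have : (3 : ℝ) ≤ p := by exact_mod_cast h3
    linarith
  have hNφ : (N.totient : ℝ) = 2 / ((p : ℝ) - 1) * O.card := by
    rw [hO1, hφ]
    push_cast [Nat.cast_sub hp.out.one_lt.le]
    field_simp
  have hO0 : (0 : ℝ) ≤ O.card := Nat.cast_nonneg _
  rw [← hO1]
  set β := Real.log ((p * N : ℕ) * (1 + Real.log (p * N : ℕ)) ^ 2) / (2 * Real.log p) with hβ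
  have h7 : (β + 2 / ((p : ℝ) - 1)) * O.card ≤ c * O.card := mul_le_mul_of_nonneg_right hc hO0
  nlinarith

end Pool.Agent.U332.GX
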